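import Mathlib
import Pool.Agent.H86.CMLib.TH118.IS.Two
import Pool.Agent.H86.CMLib.TH118.SC.Pick

/-!
# The eigenspaces of the conjugation with an element of finite order, for any Lie algebra
-/

set_option linter.unusedSectionVars false

namespace Pool.Agent.TH118.SG

open Module Pool.Agent.H204R3.SP Pool.Agent.H204R3.GP Pool.Agent.W522.U Pool.Agent.TH118.CR
open Pool.Agent.TH118.CU Pool.Agent.TH118.IS

variable {K : Type} [Field K] {X : Type} [AddCommGroup X] [Module K X]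
  {Γ : Type} [Group Γ]

/-- The elements `N` of the Lie algebra with `γ N γ⁻¹ = ν N`. -/
def Lnu (R : Representation K Γ X) (L : Submodule K (End K X)) (γ : Γ) (ν : K) :
    Submodule K (End K X) where
  carrier := {N | N ∈ L ∧ ∀ u, R γ (N u) = ν • N (R γ u)}
  zero_mem' := ⟨Submodule.zero_mem _, fun u => by simp⟩
  add_mem' := fun {N M} hN hM => ⟨Submodule.add_mem _ hN.1 hM.1, fun u => by
    rw [LinearMap.add_apply, LinearMap.add_apply, map_add, hN.2, hM.2, smul_add]⟩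
  smul_mem' := fun c N hN => ⟨Submodule.smul_mem _ c hN.1, fun u => by
    rw [LinearMap.smul_apply, LinearMap.smul_apply, map_smul, hN.2, smul_comm]⟩

variable {R : Representation K Γ X} {L : Submodule K (End K X)} {γ : Γ}

theorem mem_Lnu {ν : K} {N : End K X} :
    N ∈ Lnu R L γ ν ↔ N ∈ L ∧ ∀ u, R γ (N u) = ν • N (R γ u) := Iff.rfl

variable [CharZero K] [FiniteDimensional K X]

theorem Lnu_maps {ν α : K} {N : End K X} (hN : N ∈ Lnu R L γ ν) {u : X}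
    (hu : u ∈ eig R γ ⊤ α) : N u ∈ eig R γ ⊤ (α * ν) := by
  rw [mem_eig] at hu ⊢
  refine ⟨Submodule.mem_top, ?_⟩
  rw [hN.2, hu.2, map_smul, smul_smul, mul_comm]

theorem avg_Lnu (hconj : ∀ g : Γ, ∀ Y ∈ L, R g * Y * R g⁻¹ ∈ L) {k : ℕ} (hγ : R γ ^ k = 1) {ν : K}
    (hν : ν ^ k = 1) (hν0 : ν ≠ 0) {Y : End K X}
    (hY : Y ∈ L) : avg R γ k ν Y ∈ Lnu R L γ ν :=
  ⟨Submodule.sum_mem _ fun t _ => Submodule.smul_mem _ _ (hconj (γ ^ t) Y hY),
    fun u => avg_semi hγ hν hν0 Y u⟩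

theorem Lnu_bracket (hbr : ∀ Y ∈ L, ∀ Z ∈ L, Y * Z - Z * Y ∈ L) {ν : K} {Y N : End K X}
    (hY : Y ∈ Lnu R L γ 1) (hN : N ∈ Lnu R L γ ν) : Y * N - N * Y ∈ Lnu R L γ ν := by
  refine ⟨hbr _ hY.1 _ hN.1, fun u => ?_⟩
  rw [LinearMap.sub_apply, LinearMap.sub_apply, Module.End.mul_apply, Module.End.mul_apply,
    Module.End.mul_apply, Module.End.mul_apply, map_sub, hY.2, hN.2, hN.2, hY.2, one_smul, one_smul,
    map_smul, smul_sub]

variable [IsAlgClosed K]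

/-- The components of the image of an eigenvector. -/
theorem image_comp {k : ℕ} (hk : 0 < k) (hγ : R γ ^ k = 1) {Y : End K X} {α : K} {s : X}
    (hs : s ∈ eig R γ ⊤ α) :
    ∃ f : K →₀ X, (∀ β, f β ∈ eig R γ ⊤ β) ∧ (f.sum fun _ x => x) = Y s ∧
      ∀ β, f β ≠ 0 → (k : K) • f β = avg R γ k (β * α⁻¹) Y s ∧ β ^ k = 1 ∧ β ≠ 0 := by
  obtain ⟨f, hf, hfs⟩ := exists_comp hk hγ (U := (⊤ : Submodule K X)) (fun u _ => Submodule.mem_top)
    (Submodule.mem_top (x := Y s))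
  refine ⟨f, hf, hfs, fun β hβ => ?_⟩
  have h1 : eig R γ ⊤ β ≠ ⊥ := by
    intro h
    have h2 := hf β
    rw [h, Submodule.mem_bot] at h2
    exact hβ h2
  have hβk := eig_root hγ h1
  have hβ0 := eig_ne h1
  refine ⟨?_, hβk, hβ0⟩
  rw [← prj_comp hγ hf hfs hβk hβ0]
  have hs0 : s ≠ 0 := by
    rintro rfl
    have h3 := prj_comp hγ hf hfs hβk hβ0
    rw [map_zero] at h3
    apply hβ
    have h4 : prj R γ k β (0 : X) = 0 := by simp [prj]
    rw [h4] at h3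
    exact (smul_eq_zero.1 h3.symm).resolve_left (Nat.cast_ne_zero.2 hk.ne')
  have hα : α ≠ 0 := eig_ne (Submodule.ne_bot_iff _ |>.2 ⟨s, hs, hs0⟩)
  exact (avg_eig hα hs Y).symm

section

variable (hconj : ∀ g : Γ, ∀ Y ∈ L, R g * Y * R g⁻¹ ∈ L) {k : ℕ} (hk : 0 < k)
  (hγ : R γ ^ k = 1) {a : K}
  (hX : SI R (⊤ : Submodule K X)) (hns : ∃ Y ∈ L, ¬∃ c : K, ∀ u : X, Y u = c • u)

include hconj hk hγ hX hns in
/-- Some eigenspace of the conjugation with an eigenvalue different from `1` is not zero. -/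
theorem exists_Lnu {α : K} (hα : finrank K (eig R γ ⊤ α) = 1) :
    ∃ ν : K, ν ≠ 1 ∧ Lnu R L γ ν ≠ ⊥ := by
  by_contra hcon
  push Not at hcon
  have hαb : eig R γ ⊤ α ≠ ⊥ := by
    intro h
    rw [h, finrank_bot] at hα
    exact absurd hα (by norm_num)
  obtain ⟨s, hs, hs0⟩ := Submodule.exists_mem_ne_zero_of_ne_bot hαb
  have hαk := eig_root hγ hαb
  have hα0 := eig_ne hαb
  obtain ⟨Y, hY, hYn⟩ := hns
  apply hYn
  have h1 : ∀ Y ∈ L, ∃ c : K, Y s = c • s := by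
    intro Y hY
    obtain ⟨f, hf, hfs, hf1⟩ := image_comp hk hγ (Y := Y) hs
    have h2 : ∀ β, β ≠ α → f β = 0 := by
      intro β hβ
      by_contra h0
      obtain ⟨h3, hβk, hβ0⟩ := hf1 β h0
      have h4 : β * α⁻¹ ≠ 1 := fun h => hβ ((mul_inv_eq_one₀ hα0).1 h)
      have h5 : avg R γ k (β * α⁻¹) Y ∈ Lnu R L γ (β * α⁻¹) :=
        avg_Lnu hconj hγ (by rw [mul_pow, inv_pow, hαk, hβk, inv_one, mul_one])
          (mul_ne_zero hβ0 (inv_ne_zero hα0)) hY
      rw [hcon _ h4, Submodule.mem_bot] at h5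
      rw [h5, LinearMap.zero_apply] at h3
      exact h0 ((smul_eq_zero.1 h3).resolve_left (Nat.cast_ne_zero.2 hk.ne'))
    have h3 : Y s = f α := by
      rw [← hfs, Finsupp.sum, Finset.sum_eq_single α]
      · intro β _ hβ
        exact h2 β hβ
      · intro h
        exact Finsupp.notMem_support_iff.1 h
    obtain ⟨c, hc⟩ := (finrank_eq_one_iff_of_nonzero' (⟨s, hs⟩ : eig R γ ⊤ α)
      (fun h => hs0 (congrArg Subtype.val h))).1 hα ⟨f α, hf α⟩
    refine ⟨c, ?_⟩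
    rw [h3]
    exact (congrArg Subtype.val hc).symm
  obtain ⟨c, hc⟩ := scalar_of_vector hX L hconj Submodule.mem_top hs0 h1 Y hY
  exact ⟨c, fun u => hc u Submodule.mem_top⟩

end

end Pool.Agent.TH118.SG
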