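import Mathlib
import Pool.Agent.H86.CMLib.TH118.SG.Jor
import Pool.Agent.H86.CMLib.TH125.Gal.Grp

/-!
# The operator attached to an element of the group
-/

set_option linter.unusedSectionVars false

namespace Pool.Agent.TH118.SG

open Module Finset Function

variable {K : Type} [Field K] [CharZero K] [IsAlgClosed K] {T : Type} [AddCommGroup T]
  [Module K T] [FiniteDimensional K T] {E : Type} [AddCommGroup E] [Module K E]
  [FiniteDimensional K E]

/-- An additive function on the multiplicative group, extended by zero. -/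
noncomputable def ext0 (θ : Additive Kˣ →+ K) (α : K) : K := by
  classical
  exact if h : α = 0 then 0 else θ (Additive.ofMul (Units.mk0 α h))

theorem ext0_zero (θ : Additive Kˣ →+ K) : ext0 θ 0 = 0 := by
  rw [ext0, dif_pos rfl]

theorem ext0_ne (θ : Additive Kˣ →+ K) {α : K} (h : α ≠ 0) :
    ext0 θ α = θ (Additive.ofMul (Units.mk0 α h)) := by
  rw [ext0, dif_neg h]

theorem ext0_mul (θ : Additive Kˣ →+ K) {α β : K} (hα : α ≠ 0) (hβ : β ≠ 0) :
    ext0 θ (α * β) = ext0 θ α + ext0 θ β := by
  rw [ext0_ne θ hα, ext0_ne θ hβ, ext0_ne θ (mul_ne_zero hα hβ), ← map_add, ← ofMul_mul]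
  congr 2
  exact Units.ext rfl

theorem ext0_one (θ : Additive Kˣ →+ K) : ext0 θ 1 = 0 := by
  have h := ext0_mul θ (one_ne_zero (α := K)) one_ne_zero
  rw [mul_one] at h
  linear_combination -h

theorem ext0_prod (θ : Additive Kˣ →+ K) {S : Type} (s : Finset S) (a : S → K)
    (ha : ∀ j ∈ s, a j ≠ 0) : ext0 θ (∏ j ∈ s, a j) = ∑ j ∈ s, ext0 θ (a j) := by
  classical
  induction s using Finset.induction_on with
  | empty => rw [prod_empty, sum_empty, ext0_one]
  | insert j s hj ih =>
    rw [prod_insert hj, sum_insert hj, ext0_mul θ (ha j (mem_insert_self _ _))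
      (prod_ne_zero_iff.2 fun i hi => ha i (mem_insert_of_mem hi)),
      ih fun i hi => ha i (mem_insert_of_mem hi)]

theorem ext0_pow (θ : Additive Kˣ →+ K) (α : K) {M : ℕ} (hM : 0 < M) :
    ext0 θ (α ^ M) = M * ext0 θ α := by
  by_cases h : α = 0
  · rw [h, zero_pow hM.ne', ext0_zero, mul_zero]
  · have h1 := ext0_prod θ (univ : Finset (Fin M)) (fun _ => α) fun _ _ => h
    rw [prod_const, sum_const, card_univ, Fintype.card_fin, nsmul_eq_mul] at h1
    exact h1

/-- The operators for the powers. -/
theorem op_pow (θ : Additive Kˣ →+ K) (f : End K E) {Y : End K E}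
    (hY : ∀ β, ∀ x ∈ f.maxGenEigenspace β, Y x = ext0 θ β • x) {M : ℕ} (hM : 0 < M) :
    ∀ c, ∀ x ∈ (f ^ M).maxGenEigenspace c, Y x = (ext0 θ c / M) • x := by
  obtain ⟨Y', hY'⟩ := exists_op (f ^ M) fun c => ext0 θ c / M
  have h1 : Y = Y' := by
    refine op_ext f fun β x hx => ?_
    rw [hY β x hx, hY' _ x (gen_pow hx M), ext0_pow θ β hM]
    congr 1
    have h2 : (M : K) ≠ 0 := Nat.cast_ne_zero.2 hM.ne'
    field_simp
  rw [h1]
  exact hY'

variable {S : Type} [Fintype S] [DecidableEq S]

open scoped Classical in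
/-- The derivation formula. -/
theorem deriv_op (θ : Additive Kˣ →+ K) (f : End K T) (hf : Function.Injective f) (f' : End K E)
    {Y : End K T} (hY : ∀ β, ∀ x ∈ f.maxGenEigenspace β, Y x = ext0 θ β • x) {Y' : End K E}
    (hY' : ∀ β, ∀ x ∈ f'.maxGenEigenspace β, Y' x = ext0 θ β • x)
    {h : MultilinearMap K (fun _ : S => T) E} {M : ℕ} (hM : 0 < M)
    (hh : ∀ v, h (fun j => (f ^ M) (v j)) = (f' ^ M) (h v)) (v : S → T) :
    ∑ j, h (update v j (Y (v j))) = Y' (h v) := by
  let b : ∀ β : K, Basis (Fin (finrank K (f.maxGenEigenspace β))) K (f.maxGenEigenspace β) :=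
    fun β => Module.finBasis K _
  let B := (gen_internal f).collectedBasis b
  have hB : ∀ i, B i ∈ f.maxGenEigenspace i.1 := (gen_internal f).collectedBasis_mem b
  let D : MultilinearMap K (fun _ : S => T) E :=
    ∑ j, h.compLinearMap fun i => if i = j then Y else LinearMap.id
  have hD : ∀ v, D v = ∑ j, h (update v j (Y (v j))) := by
    intro v
    rw [_root_.sum_apply]
    refine sum_congr rfl fun j _ => ?_
    rw [MultilinearMap.compLinearMap_apply]
    congr 1
    funext i
    by_cases hi : i = j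
    · subst hi
      rw [if_pos rfl, update_self]
    · rw [if_neg hi, update_of_ne hi, LinearMap.id_apply]
  have key : D = Y'.compMultilinearMap h := by
    refine Module.Basis.ext_multilinear (fun _ => B) fun r => ?_
    rw [hD]
    change _ = Y' (h fun j => B (r j))
    have h1 : ∀ j, (r j).1 ≠ 0 := by
      intro j h0
      obtain ⟨n, hn⟩ := mem_gen.1 (hB (r j))
      rw [h0, map_zero, sub_zero] at hn
      have h2 : ∀ n : ℕ, Function.Injective (f ^ n) := by
        intro n
        induction n with
        | zero => exact fun x y h => h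
        | succ n ih =>
          intro x y hxy
          rw [pow_succ, Module.End.mul_apply, Module.End.mul_apply] at hxy
          exact hf (ih hxy)
      exact B.ne_zero (r j) (h2 n (by rw [hn, map_zero]))
    have h2 : h (fun j => B (r j)) ∈ (f' ^ M).maxGenEigenspace (∏ j, (r j).1 ^ M) :=
      multi_gen hh (fun j => (r j).1 ^ M) fun j => gen_pow (hB (r j)) M
    rw [op_pow θ f' hY' hM _ _ h2, ext0_prod θ univ _ fun j _ => pow_ne_zero M (h1 j)]
    have h3 : ∀ j, h (update (fun j => B (r j)) j (Y (B (r j)))) =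
        ext0 θ (r j).1 • h fun j => B (r j) := by
      intro j
      rw [hY _ _ (hB (r j)), MultilinearMap.map_update_smul, update_eq_self]
    rw [sum_congr rfl fun j _ => h3 j, ← sum_smul]
    congr 1
    have hMK : (M : K) ≠ 0 := Nat.cast_ne_zero.2 hM.ne'
    rw [sum_congr rfl fun j _ => ext0_pow θ (r j).1 hM, ← mul_sum]
    field_simp
  rw [← hD, key]
  rfl

end Pool.Agent.TH118.SG
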